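import Mathlib
import Pool.Agent.W773.LipInt

set_option autoImplicit false
open MeasureTheory
open scoped ENNReal NNReal

/-!
# `L^γ[0,1]` is a Lipschitz interpolation space between `L^β[0,1]` and `L^α[0,1]`

For all `1 ≤ β < γ < α < ∞`, with the constant `2 (γ/(γ-β) + γ/(α-γ))^{1/γ}`.
-/

namespace Pool.Agent.Results.MP_6e3e44_an.LipschitzInterpolation

/-- Lebesgue measure on `[0,1]`. -/
noncomputable abbrev leb01 : Measure ℝ := volume.restrict (Set.Icc (0 : ℝ) 1)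

/-- The space `L^β[0,1]` of complex valued functions. The spaces `L^γ ⊂ L^β` and `L^α ⊂ L^β` for
`β < γ < α` are the sets of the `x` in it with `MemLp x γ`, respectively `MemLp x α`. -/
abbrev LB (β : ℝ) : Type := Lp ℂ (ENNReal.ofReal β) leb01

/-- `L^γ[0,1]` is a Lipschitz interpolation space with constant `C` between `L^β[0,1]` and
`L^α[0,1]`: every map `U : L^β → L^β` (possibly nonlinear) that maps `L^α` into `L^α` and is
Lipschitz on `L^β` with constant `M₀` and on `L^α` with constant `M₁` (for the respective norms)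
maps `L^γ` into `L^γ` and is Lipschitz there with constant `C max(M₀, M₁)`. -/
def IsLipschitzInterpolation (β γ α : ℝ) (C : ℝ≥0) : Prop :=
  ∀ (U : LB β → LB β) (M₀ M₁ : ℝ≥0),
    (∀ x : LB β, MemLp x (ENNReal.ofReal α) leb01 → MemLp (U x) (ENNReal.ofReal α) leb01) →
    (∀ x y : LB β, eLpNorm (⇑(U x) - ⇑(U y)) (ENNReal.ofReal β) leb01 ≤
      M₀ * eLpNorm (⇑x - ⇑y) (ENNReal.ofReal β) leb01) →
    (∀ x y : LB β, MemLp x (ENNReal.ofReal α) leb01 → MemLp y (ENNReal.ofReal α) leb01 →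
      eLpNorm (⇑(U x) - ⇑(U y)) (ENNReal.ofReal α) leb01 ≤
        M₁ * eLpNorm (⇑x - ⇑y) (ENNReal.ofReal α) leb01) →
    (∀ x : LB β, MemLp x (ENNReal.ofReal γ) leb01 → MemLp (U x) (ENNReal.ofReal γ) leb01) ∧
    (∀ x y : LB β, MemLp x (ENNReal.ofReal γ) leb01 → MemLp y (ENNReal.ofReal γ) leb01 →
      eLpNorm (⇑(U x) - ⇑(U y)) (ENNReal.ofReal γ) leb01 ≤
        ((C * max M₀ M₁ : ℝ≥0) : ℝ≥0∞) * eLpNorm (⇑x - ⇑y) (ENNReal.ofReal γ) leb01)

/-- For all `1 ≤ β < γ < α < ∞`, `L^γ[0,1]` is a Lipschitz interpolation space between `L^β[0,1]`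
and `L^α[0,1]`, with the positive constant `2 (γ/(γ-β) + γ/(α-γ))^{1/γ}`. -/
theorem result (β γ α : ℝ) (hβ : 1 ≤ β) (hβγ : β < γ) (hγα : γ < α) :
    0 < (2 * (γ / (γ - β) + γ / (α - γ)) ^ (1 / γ)).toNNReal ∧
    IsLipschitzInterpolation β γ α (2 * (γ / (γ - β) + γ / (α - γ)) ^ (1 / γ)).toNNReal := by
  have hγ0 : 0 < γ := by linarith
  have h1 : 0 < γ - β := by linarith
  have h2 : 0 < α - γ := by linarith
  refine ⟨Real.toNNReal_pos.mpr (by positivity), fun U M₀ M₁ hα h0 h1 => ?_⟩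
  have h := Pool.Agent.W773.LipInt.main hβ hβγ hγα U M₀ M₁ h0 hα h1
  refine ⟨h.1, fun x y hx hy => ?_⟩
  rw [ENNReal.coe_mul]
  exact h.2 x y hx hy

end Pool.Agent.Results.MP_6e3e44_an.LipschitzInterpolation
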